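import Pool.Agent.Lib.MP_e039bb_gt.Main
import Pool.Agent.Lib.MP_e039bb_gt.Pd.Ori

/-! A right-angled Artin group whose cup form is nondegenerate over every field for some class and
never unimodular: two pentagons joined by an edge, every vertex doubled. -/

namespace Pool.Agent.Lib.MP_e039bb_gt

section Core

open Finsupp

variable {V : Type} [DecidableEq V] {Γ : SimpleGraph V} {X : Type} [TopologicalSpace X]
  {c : Sx X 4 →₀ ℤ} [PathConnectedSpace X] {x₀ : X}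

theorem core_any (E : FundamentalGroup X x₀ ≃* Raag Γ) (hc : Dual c) {ι J : Type} [Fintype ι]
    [Fintype J] (a b : ι → V) (hab : ∀ i, Γ.Adj (a i) (b i))
    (hi : Function.Injective fun i => s(a i, b i))
    (h : ∀ ω, Alt Γ ω → ∃ p : ℕ, p.Prime ∧ ∃ (κ : J → ι → ℤ) (o : J → ι),
      (∀ j, ¬(p : ℤ) ∣ κ j (o j)) ∧
      (∀ j j', j' ≠ j → κ j' (o j) = 0) ∧
      ∀ j i, (p : ℤ) ∣ ∑ i', κ j i' * ω (a i') (b i') (a i) (b i)) :
    ((Fintype.card ι + Fintype.card J : ℕ) : Cardinal) ≤ Module.rank ℤ (H2 X) := by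
  classical
  obtain ⟨l, γ, D⟩ := exists_dat E
  obtain ⟨p, hp, κ, o, k1, k2, k3⟩ := h (om c l) ⟨D.sw1 hc.1, D.sw2 hc.1, D.sw3 hc.1,
    fun s t u v h => D.zero hc.1 h u v⟩
  have l1 : ∀ v, l v 1 = 0 := fun v => by simpa using D.add v 1 1
  choose t t1 t2 using fun i => torus x₀ (D.com _ _ (hab i))
  choose y w y1 y2 using fun i => hc.2 (t i) (t1 i)
  have t3 : ∀ i i', linearCombination ℤ (xx l (a i) (b i)) (t i') = if i = i' then 1 else 0 := by
    intro i i'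
    rw [show xx l (a i) (b i) = fun σ => l (a i) (gg x₀ (e2 σ 0 1)) * l (b i) (gg x₀ (e2 σ 1 2))
      from rfl, t2 i' _ _ (l1 _) (l1 _)]
    simp only [D.gen]
    have h1 := (hab i).ne
    by_cases h2 : i = i'
    · subst h2
      simp [h1, h1.symm]
    have h3 : ¬s(a i, b i) = s(a i', b i') := fun e => h2 (hi e)
    rw [Sym2.eq_iff, not_or] at h3
    rw [if_neg h2]
    split_ifs <;> simp_all
  have y3 : ∀ i i', linearCombination ℤ (y i) (cap (xx l (a i') (b i')) c) =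
      if i' = i then 1 else 0 := fun i i' => by
    have h1 := LinearMap.congr_fun (co_iff.2 (D.xx_co (a i') (b i'))) (w i)
    rw [LinearMap.comp_apply, LinearMap.zero_apply] at h1
    rw [D.comm hc.1 _ _ (co_iff.1 (y1 i)), ← t3, y2 i, map_add, h1, add_zero]
  let φ : ι ⊕ ι → Sx X 2 → ℤ := Sum.elim (fun i => xx l (a i) (b i)) y
  have hφ : ∀ m, linearCombination ℤ (φ m) ∘ₗ bd X 2 = 0 :=
    Sum.forall.2 ⟨fun i => co_iff.2 (D.xx_co _ _), y1⟩
  let Φ : ι ⊕ ι → H2 X →ₗ[ℤ] ℤ := fun m => Submodule.liftQ _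
    (linearCombination ℤ (φ m) ∘ₗ (LinearMap.ker (bd X 1)).subtype) (by
      rintro ⟨_, h1⟩ ⟨z, rfl⟩
      exact LinearMap.congr_fun (hφ m) z)
  let z : ι ⊕ J → LinearMap.ker (bd X 1) := Sum.elim (fun i => ⟨t i, t1 i⟩) fun j =>
    ∑ i, κ j i • ⟨cap (xx l (a i) (b i)) c, cap_cyc hc.1 (D.xx_co _ _)⟩
  have h1 : LinearIndependent ℤ fun i => (Submodule.Quotient.mk (z i) : H2 X) := by
    refine indep hp.one_lt _ Φ fun n hn => ?_
    have e : ∀ m i, Φ m (Submodule.Quotient.mk (z i)) = linearCombination ℤ (φ m) (z i) :=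
      fun _ _ => rfl
    simp only [e, Fintype.sum_sum_type, z, Sum.elim_inl, Sum.elim_inr,
      AddSubmonoidClass.coe_finsetSum, SetLike.val_smul, map_sum, map_smul, smul_eq_mul] at hn
    have n1 : ∀ i, (p : ℤ) ∣ n (.inl i) := fun i => by
      have h2 := hn (.inl i)
      simp only [φ, Sum.elim_inl, t3, om_eq, mul_ite, mul_one, mul_zero, Finset.sum_ite_eq,
        Finset.mem_univ, if_true] at h2
      rw [eq_neg_of_add_eq_zero_left h2]
      exact (Finset.dvd_sum fun j _ => (k3 j i).mul_left _).neg_right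
    refine Sum.forall.2 ⟨n1, fun j => ?_⟩
    have h2 := hn (.inr (o j))
    simp only [φ, Sum.elim_inr, y3, mul_ite, mul_one, mul_zero, Finset.sum_ite_eq',
      Finset.mem_univ, if_true] at h2
    rw [Finset.sum_eq_single j (fun j' _ h => by rw [k2 j j' h, mul_zero]) (by simp)] at h2
    have h3 : (p : ℤ) ∣ n (.inr j) * κ j (o j) := by
      rw [eq_neg_of_add_eq_zero_right h2]
      exact (Finset.dvd_sum fun i _ => (n1 i).mul_right _).neg_right
    exact ((Nat.prime_iff_prime_int.1 hp).dvd_or_dvd h3).resolve_right (k1 j)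
  simpa using h1.cardinal_le_rank

end Core

namespace All

open Finset

/-- Adjacency in the two pentagons joined by an edge. -/
def hh (x y : ℕ) : Bool := (0x48280500a0904090500a01432 : ℕ).testBit (10 * x + y)

/-- The first ends of its edges. -/
def hx (c : ℕ) : ℕ := 0x58765003210 >>> (4 * c) % 16

/-- The second ends of its edges. -/
def hy (c : ℕ) : ℕ := 0x99876544321 >>> (4 * c) % 16

/-- Adjacency in the doubled graph. -/
def ad (s t : ℕ) : Bool := (s / 2 == t / 2 && s != t) || hh (s / 2) (t / 2)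

/-- The first end of an edge. -/
def ea (i : ℕ) : ℕ := if i < 10 then 2 * i else 2 * hx ((i - 10) / 4) + (i - 10) / 2 % 2

/-- The second end of an edge. -/
def eb (i : ℕ) : ℕ := if i < 10 then 2 * i + 1 else 2 * hy ((i - 10) / 4) + (i - 10) % 2

/-- Two edges span a clique with four vertices. -/
def cl (i j : ℕ) : Bool :=
  ad (ea i) (ea j) && ad (ea i) (eb j) && ad (eb i) (ea j) && ad (eb i) (eb j)

/-- The signed adjacency. -/
def sa (s t : ℕ) : ℤ := if ad s t then (if s < t then 1 else -1) else 0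

/-- The two integral classes. -/
def om (ε : ℤ) (s t u v : ℕ) : ℤ :=
  (if s + t + u + v = 14 then ε else 1) * (sa s t * sa s u * sa s v * sa t u * sa t v * sa u v)

/-- Their forms. -/
def fm (ε : ℤ) (i j : ℕ) : ℤ := om ε (ea i) (eb i) (ea j) (eb j)

/-- A multiple of the inverse. -/
def iv (T : ℕ) (D ε : ℤ) (i j : ℕ) : ℤ :=
  if i < 10 then (if j < 10 then ((T >>> (4 * (10 * i + j)) % 16 : ℕ) : ℤ) - 8 else 0)
  else if i + j = 23 + 8 * ((i - 10) / 4) then D * fm ε i j else 0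

/-- The table for the prime three. -/
def t3 : ℕ :=
  0xa967a799779aa66977996aa9697799769aa79977a66aa7997779977a967a977999aa66977996aa9679977769aa79977a66aa

/-- The table for the prime five. -/
def t5 : ℕ :=
  0xab65a77979baa66997976aab69979756baa77979a66aa77979799776baba79977b6a6a97799aa65679977b656a97799aa6a6

theorem ad_symm : ∀ s < 20, ∀ t < 20, ad s t = ad t s := by decide +kernel

theorem ad_irr : ∀ s < 20, ad s s = false := by decide +kernel

theorem sa_anti : ∀ s < 20, ∀ t < 20, sa s t = -sa t s := by decide +kernel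

theorem e_lt : ∀ i < 54, ea i < eb i ∧ eb i < 20 ∧ ad (ea i) (eb i) = true := by decide +kernel

theorem e_inj : ∀ i < 54, ∀ j < 54, ea i = ea j → eb i = eb j → i = j := by decide +kernel

theorem e_sur : ∀ t < 20, ∀ s < t, ad s t = true → ∃ i < 54, ea i = s ∧ eb i = t := by
  decide +kernel

theorem iv3 : ∀ i < 54, ∀ j < 54, ∑ k ∈ range 54, (if iv t3 3 1 i k = 0 then 0 else
    iv t3 3 1 i k * fm 1 k j) = if i = j then 3 else 0 := by decide +kernel

theorem iv5 : ∀ i < 54, ∀ j < 54, ∑ k ∈ range 54, (if iv t5 5 (-1) i k = 0 then 0 else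
    iv t5 5 (-1) i k * fm (-1) k j) = if i = j then 5 else 0 := by decide +kernel

theorem lf1 : ∀ c < 11, ∀ j < 54, cl (10 + 4 * c) j = true → j = 13 + 4 * c := by decide +kernel

theorem lf2 : ∀ c < 11, ea (10 + 4 * c) = ea (hx c) ∧ eb (10 + 4 * c) = ea (hy c) ∧
    ea (13 + 4 * c) = eb (hx c) ∧ eb (13 + 4 * c) = eb (hy c) := by decide +kernel

theorem lf3 : ∀ i < 10, ∀ j < 54, 10 ≤ j → cl i j = false := by decide +kernel

theorem ker (M : ℕ → ℕ → ℤ) (sy : ∀ i j, M i j = M j i) (z : ∀ i j, cl i j = false → M i j = 0)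
    (lf : ∀ c < 11, M (10 + 4 * c) (13 + 4 * c) = -M (hx c) (hy c)) :
    ∃ p : ℕ, p.Prime ∧ ∃ κ : ℕ → ℤ, ∃ o < 54, κ o = 1 ∧
      ∀ j < 54, (p : ℤ) ∣ ∑ i ∈ range 54, κ i * M i j := by
  by_cases hu : ∀ c < 11, M (hx c) (hy c) * M (hx c) (hy c) = 1
  swap
  · push Not at hu
    obtain ⟨c, hc, hu⟩ := hu
    obtain ⟨p, hp, hd⟩ := Nat.exists_prime_and_dvd (n := (M (hx c) (hy c)).natAbs) fun h => hu (by
      rw [← Int.natAbs_mul_self, h]; rfl)
    refine ⟨p, hp, fun i => if i = 10 + 4 * c then 1 else 0, 10 + 4 * c, by omega, if_pos rfl,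
      fun j hj => ?_⟩
    beta_reduce
    rw [sum_eq_single (10 + 4 * c) (fun i _ h => by rw [if_neg h, zero_mul])
      (fun h => absurd (mem_range.2 (by omega)) h), if_pos rfl, one_mul]
    cases h : cl (10 + 4 * c) j
    · rw [z _ _ h]; exact dvd_zero _
    · rw [lf1 c hc j hj h, lf c hc]
      exact (Int.natCast_dvd.2 hd).neg_right
  have h01 : M 0 1 * M 0 1 = 1 := hu 0 (by norm_num)
  have h12 : M 1 2 * M 1 2 = 1 := hu 1 (by norm_num)
  have h23 : M 2 3 * M 2 3 = 1 := hu 2 (by norm_num)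
  have h34 : M 3 4 * M 3 4 = 1 := hu 3 (by norm_num)
  have h04 : M 0 4 * M 0 4 = 1 := hu 4 (by norm_num)
  have h05 : M 0 5 * M 0 5 = 1 := hu 5 (by norm_num)
  have h56 : M 5 6 * M 5 6 = 1 := hu 6 (by norm_num)
  have h67 : M 6 7 * M 6 7 = 1 := hu 7 (by norm_num)
  have h78 : M 7 8 * M 7 8 = 1 := hu 8 (by norm_num)
  have h89 : M 8 9 * M 8 9 = 1 := hu 9 (by norm_num)
  have h59 : M 5 9 * M 5 9 = 1 := hu 10 (by norm_num)
  obtain ⟨k, hk⟩ : ∃ k, k = -2 * (M 0 1 * M 1 2 * M 2 3 * M 3 4 * M 0 4) * M 0 5 := ⟨_, rfl⟩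
  obtain ⟨p, hp, q, hq⟩ : ∃ p : ℕ, p.Prime ∧ ∃ q : ℤ,
      1 - 4 * ((M 0 1 * M 1 2 * M 2 3 * M 3 4 * M 0 4) *
        (M 5 6 * M 6 7 * M 7 8 * M 8 9 * M 5 9)) = p * q := by
    obtain ⟨C, hC⟩ : ∃ C, C = (M 0 1 * M 1 2 * M 2 3 * M 3 4 * M 0 4) *
      (M 5 6 * M 6 7 * M 7 8 * M 8 9 * M 5 9) := ⟨_, rfl⟩
    have h1 : C * C = (M 0 1 * M 0 1) * (M 1 2 * M 1 2) * (M 2 3 * M 2 3) * (M 3 4 * M 3 4) *
        (M 0 4 * M 0 4) * (M 5 6 * M 5 6) * (M 6 7 * M 6 7) * (M 7 8 * M 7 8) * (M 8 9 * M 8 9) *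
        (M 5 9 * M 5 9) := by rw [hC]; ring
    rw [h01, h12, h23, h34, h04, h56, h67, h78, h89, h59] at h1
    rw [← hC]
    rcases Int.eq_one_or_neg_one_of_mul_eq_one h1 with h | h <;> rw [h]
    · exact ⟨3, Nat.prime_three, -1, by norm_num⟩
    · exact ⟨5, Nat.prime_five, 1, by norm_num⟩
  let κ : ℕ → ℤ := fun i => match i with
    | 0 => 1
    | 1 => M 1 2 * M 2 3 * M 3 4 * M 0 4
    | 2 => -(M 0 1 * M 1 2)
    | 3 => -(M 3 4 * M 0 4)
    | 4 => M 0 1 * M 1 2 * M 2 3 * M 3 4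
    | 5 => k
    | 6 => M 6 7 * M 7 8 * M 8 9 * M 5 9 * k
    | 7 => -(M 5 6 * M 6 7 * k)
    | 8 => -(M 8 9 * M 5 9 * k)
    | 9 => M 5 6 * M 6 7 * M 7 8 * M 8 9 * k
    | _ + 10 => 0
  refine ⟨p, hp, κ, 0, by norm_num, rfl, fun j hj => ?_⟩
  have e : ∑ i ∈ range 54, κ i * M i j = ∑ i ∈ range 10, κ i * M i j :=
    (sum_subset (range_mono (by norm_num)) fun i _ h => by
      obtain ⟨i, rfl⟩ := Nat.exists_eq_add_of_le' (not_lt.1 (mt mem_range.2 h))
      exact zero_mul _).symm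
  rw [e]
  rcases lt_or_ge j 10 with h | h
  · simp only [sum_range_succ, sum_range_zero, κ]
    interval_cases j
    · refine ⟨0, ?_⟩
      rw [z 0 0 rfl, z 2 0 rfl, z 3 0 rfl, z 6 0 rfl, z 7 0 rfl, z 8 0 rfl, z 9 0 rfl,
        sy 1 0, sy 4 0, sy 5 0]
      linear_combination -2 * (M 0 1 * M 1 2 * M 2 3 * M 3 4 * M 0 4) * h05 + M 0 5 * hk
    · refine ⟨0, ?_⟩
      rw [z 1 1 rfl, z 3 1 rfl, z 4 1 rfl, z 5 1 rfl, z 6 1 rfl, z 7 1 rfl, z 8 1 rfl, z 9 1 rfl,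
        sy 2 1]
      linear_combination -M 0 1 * h12
    · refine ⟨0, ?_⟩
      rw [z 0 2 rfl, z 2 2 rfl, z 4 2 rfl, z 5 2 rfl, z 6 2 rfl, z 7 2 rfl, z 8 2 rfl, z 9 2 rfl,
        sy 3 2]
      linear_combination M 2 3 * M 3 4 * M 0 4 * h12
    · refine ⟨0, ?_⟩
      rw [z 0 3 rfl, z 1 3 rfl, z 3 3 rfl, z 5 3 rfl, z 6 3 rfl, z 7 3 rfl, z 8 3 rfl, z 9 3 rfl,
        sy 4 3]
      linear_combination M 0 1 * M 1 2 * M 2 3 * h34
    · refine ⟨0, ?_⟩
      rw [z 1 4 rfl, z 2 4 rfl, z 4 4 rfl, z 5 4 rfl, z 6 4 rfl, z 7 4 rfl, z 8 4 rfl, z 9 4 rfl]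
      linear_combination -M 0 4 * h34
    · refine ⟨q * M 0 5, ?_⟩
      rw [z 1 5 rfl, z 2 5 rfl, z 3 5 rfl, z 4 5 rfl, z 5 5 rfl, z 7 5 rfl, z 8 5 rfl,
        sy 6 5, sy 9 5]
      linear_combination M 0 5 * hq + 2 * (M 5 6 * M 6 7 * M 7 8 * M 8 9 * M 5 9) * hk
    · refine ⟨0, ?_⟩
      rw [z 0 6 rfl, z 1 6 rfl, z 2 6 rfl, z 3 6 rfl, z 4 6 rfl, z 6 6 rfl, z 8 6 rfl, z 9 6 rfl,
        sy 7 6]
      linear_combination -M 5 6 * k * h67
    · refine ⟨0, ?_⟩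
      rw [z 0 7 rfl, z 1 7 rfl, z 2 7 rfl, z 3 7 rfl, z 4 7 rfl, z 5 7 rfl, z 7 7 rfl, z 9 7 rfl,
        sy 8 7]
      linear_combination M 7 8 * M 8 9 * M 5 9 * k * h67
    · refine ⟨0, ?_⟩
      rw [z 0 8 rfl, z 1 8 rfl, z 2 8 rfl, z 3 8 rfl, z 4 8 rfl, z 5 8 rfl, z 6 8 rfl, z 8 8 rfl,
        sy 9 8]
      linear_combination M 5 6 * M 6 7 * M 7 8 * k * h89
    · refine ⟨0, ?_⟩
      rw [z 0 9 rfl, z 1 9 rfl, z 2 9 rfl, z 3 9 rfl, z 4 9 rfl, z 6 9 rfl, z 7 9 rfl, z 9 9 rfl]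
      linear_combination -M 5 9 * k * h89
  · rw [sum_eq_zero fun i hi => by rw [z _ _ (lf3 i (mem_range.1 hi) j hj h), mul_zero]]
    exact dvd_zero _

/-- The graph. -/
def gr : SimpleGraph (Fin 20) where
  Adj p q := ad p q = true
  symm := ⟨fun p q h => ad_symm _ p.2 _ q.2 ▸ h⟩
  loopless := ⟨fun p h => by simp [ad_irr _ p.2] at h⟩

/-- The first end of an edge, as a vertex. -/
def va (i : Fin 54) : Fin 20 := ⟨ea i, (e_lt _ i.2).1.trans (e_lt _ i.2).2.1⟩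

/-- The second end of an edge, as a vertex. -/
def vb (i : Fin 54) : Fin 20 := ⟨eb i, (e_lt _ i.2).2.1⟩

theorem v_adj (i : Fin 54) : gr.Adj (va i) (vb i) := (e_lt _ i.2).2.2

theorem v_inj : Function.Injective fun i : Fin 54 => s(va i, vb i) := fun i j h => by
  have a1 := (e_lt _ i.2).1
  have b1 := (e_lt _ j.2).1
  simp only [Sym2.eq_iff, va, vb, Fin.mk.injEq] at h
  exact Fin.ext (e_inj _ i.2 _ j.2 (by omega) (by omega))

theorem v_bij : Set.BijOn (fun i : Fin 54 => s(va i, vb i)) Set.univ gr.edgeSet := by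
  refine ⟨fun i _ => v_adj i, v_inj.injOn, ?_⟩
  have h0 : ∀ p q : Fin 20, gr.Adj p q → (p : ℕ) < q →
      ∃ i : Fin 54, s(va i, vb i) = s(p, q) := fun s t h2 h3 => by
    obtain ⟨i, hi, a1, a2⟩ := e_sur _ t.2 _ h3 h2
    exact ⟨⟨i, hi⟩, by simp [va, vb, a1, a2]⟩
  rintro ⟨p, q⟩ h
  have h1 : gr.Adj p q := h
  rcases lt_trichotomy (p : ℕ) q with h2 | h2 | h2
  · exact (h0 p q h1 h2).imp fun i hi => ⟨trivial, hi⟩
  · exact (h1.ne (Fin.ext h2)).elim
  · exact (h0 q p h1.symm h2).imp fun i hi => ⟨trivial, hi.trans Sym2.eq_swap⟩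

theorem field_aux {F : Type} [Field F] {T : ℕ} {D ε : ℤ} (hD : (D : F) ≠ 0)
    (h : ∀ i < 54, ∀ j < 54, ∑ k ∈ range 54, (if iv T D ε i k = 0 then 0 else
      iv T D ε i k * fm ε k j) = if i = j then D else 0) :
    ∃ ω : Fin 20 → Fin 20 → Fin 20 → Fin 20 → F,
      (∀ s t u v, ω t s u v = -ω s t u v ∧ ω s u t v = -ω s t u v ∧ ω s t v u = -ω s t u v) ∧
      (∀ s t u v, ¬gr.Adj s t → ω s t u v = 0) ∧
      (Matrix.of fun i j : Fin 54 => ω (va i) (vb i) (va j) (vb j)).det ≠ 0 := by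
  refine ⟨fun s t u v => (om ε s t u v : F), fun s t u v => ?_, fun s t u v hn => ?_, fun h0 => ?_⟩
  · simp only [← Int.cast_neg]
    refine ⟨congrArg _ ?_, congrArg _ ?_, congrArg _ ?_⟩
    · rw [om, om, sa_anti _ t.2 _ s.2, add_comm (t : ℕ) s]; ring
    · rw [om, om, sa_anti _ u.2 _ t.2, add_right_comm (s : ℕ) u t]; ring
    · rw [om, om, sa_anti _ v.2 _ u.2, add_right_comm _ (v : ℕ) u]; ring
  · have : sa s t = 0 := if_neg hn
    simp [om, this]
  · have e : (Matrix.of fun i j : Fin 54 => (iv T D ε i j : F)) *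
        (Matrix.of fun i j : Fin 54 => (om ε (va i) (vb i) (va j) (vb j) : F)) = (D : F) • 1 := by
      ext i j
      have h1 := congrArg (Int.cast : ℤ → F) (h i i.2 j j.2)
      rw [← Fin.sum_univ_eq_sum_range (fun k => if iv T D ε i k = 0 then 0 else
        iv T D ε i k * fm ε k j), Int.cast_sum] at h1
      rw [Matrix.mul_apply, Matrix.smul_apply, Matrix.one_apply, smul_eq_mul]
      refine Eq.trans (sum_congr rfl fun k _ => ?_) (h1.trans ?_)
      · simp only [Matrix.of_apply]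
        split_ifs with h2
        · rw [h2]; simp
        · rw [Int.cast_mul]; rfl
      · simp [Fin.ext_iff]
    have h2 := congrArg Matrix.det e
    rw [Matrix.det_mul, h0, mul_zero, Matrix.det_smul, Matrix.det_one, mul_one] at h2
    exact pow_ne_zero _ hD h2.symm

theorem field_all (F : Type) [Field F] : ∃ ω : Fin 20 → Fin 20 → Fin 20 → Fin 20 → F,
    (∀ s t u v, ω t s u v = -ω s t u v ∧ ω s u t v = -ω s t u v ∧ ω s t v u = -ω s t u v) ∧
    (∀ s t u v, ¬gr.Adj s t → ω s t u v = 0) ∧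
    (Matrix.of fun i j : Fin 54 => ω (va i) (vb i) (va j) (vb j)).det ≠ 0 := by
  by_cases h3 : ((3 : ℤ) : F) = 0
  · refine field_aux (fun h5 => ?_) iv5
    push_cast at h3 h5
    exact one_ne_zero (by linear_combination 2 * h3 - h5 : (1 : F) = 0)
  · exact field_aux h3 iv3

theorem lower (X : Type) [TopologicalSpace X] [PathConnectedSpace X] (x : X)
    (E : FundamentalGroup X x ≃* Raag gr) (c : Sx X 4 →₀ ℤ) (hc : Dual c) :
    (55 : Cardinal) ≤ b2 X := by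
  refine le_trans (le_of_eq ?_) (core_any E hc (J := Unit) va vb v_adj v_inj fun ω hω => ?_)
  · simp
  let f : ℕ → Fin 20 := Fin.ofNat 20
  have fa : ∀ i : Fin 54, f (ea i) = va i := fun i => Fin.ext (Nat.mod_eq_of_lt (va i).2)
  have fb : ∀ i : Fin 54, f (eb i) = vb i := fun i => Fin.ext (Nat.mod_eq_of_lt (vb i).2)
  obtain ⟨p, hp, κ, o, ho, k1, k2⟩ := ker (fun i j => if h : i < 54 ∧ j < 54 then
      ω (f (ea i)) (f (eb i)) (f (ea j)) (f (eb j)) else 0)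
    (fun i j => by simp only [and_comm (a := i < 54), hω.sw3 (f (ea i))])
    (fun i j h => by
      split_ifs with hij
      swap
      · rfl
      rw [fa ⟨i, hij.1⟩, fb ⟨i, hij.1⟩, fa ⟨j, hij.2⟩, fb ⟨j, hij.2⟩]
      simp only [cl, Bool.and_eq_false_iff] at h
      rcases h with ((h | h) | h) | h
      · rw [hω.sw2, hω.zero _ _ _ _ (ne_true_of_eq_false h), neg_zero]
      · rw [hω.sw3, hω.sw1, hω.sw3, hω.sw2, hω.zero _ _ _ _ (ne_true_of_eq_false h)]; simp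
      · rw [hω.sw1, hω.sw2, hω.zero _ _ _ _ (ne_true_of_eq_false h)]; simp
      · rw [hω.sw1, hω.sw3, hω.sw1, hω.sw3, hω.sw2, hω.zero _ _ _ _ (ne_true_of_eq_false h)]; simp)
    (fun c hc => by
      obtain ⟨a1, a2, a3, a4⟩ := lf2 c hc
      have b1 : hx c < 54 := lt_trans (Nat.mod_lt _ (by norm_num)) (by norm_num)
      have b2 : hy c < 54 := lt_trans (Nat.mod_lt _ (by norm_num)) (by norm_num)
      rw [dif_pos ⟨by omega, by omega⟩, dif_pos ⟨b1, b2⟩, a1, a2, a3, a4, hω.sw2])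
  refine ⟨p, hp, fun _ i => κ i, fun _ => ⟨o, ho⟩, fun _ h => ?_, fun _ _ h => absurd rfl h,
    fun _ i => ?_⟩
  · change (p : ℤ) ∣ κ o at h
    rw [k1] at h
    exact (Nat.prime_iff_prime_int.1 hp).not_dvd_one h
  · have h1 := k2 i i.2
    rw [← Fin.sum_univ_eq_sum_range (fun i' => κ i' * if h : i' < 54 ∧ (i : ℕ) < 54 then
      ω (f (ea i')) (f (eb i')) (f (ea i)) (f (eb i)) else 0)] at h1
    simpa [fa, fb] using h1

end All

end Pool.Agent.Lib.MP_e039bb_gt
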