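import Pool.Agent.Lib.MP_e039bb_gt.Top

/-! The lower bound for the second Betti number from a kernel of the form modulo a prime. -/

namespace Pool.Agent.Lib.MP_e039bb_gt

open Finsupp

/-- The integral Heisenberg group. -/
@[ext] structure He where
  x : ℤ
  y : ℤ
  z : ℤ

instance : Group He where
  mul g h := ⟨g.x + h.x, g.y + h.y, g.z + h.z + h.x * g.y⟩
  one := ⟨0, 0, 0⟩
  inv g := ⟨-g.x, -g.y, -g.z + g.x * g.y⟩
  mul_assoc a b c := He.ext (add_assoc _ _ _) (add_assoc _ _ _) (by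
    change a.z + b.z + b.x * a.y + c.z + c.x * (a.y + b.y) =
      a.z + (b.z + c.z + c.x * b.y) + (b.x + c.x) * a.y
    ring)
  one_mul a := He.ext (zero_add _) (zero_add _) (by
    change 0 + a.z + a.x * 0 = a.z
    ring)
  mul_one a := He.ext (add_zero _) (add_zero _) (by
    change a.z + 0 + 0 * a.y = a.z
    ring)
  inv_mul_cancel a := He.ext (neg_add_cancel _) (neg_add_cancel _) (by
    change -a.z + a.x * a.y + a.z + a.x * -a.y = 0
    ring)

variable {V : Type} [DecidableEq V] {Γ : SimpleGraph V}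

omit [DecidableEq V] in
theorem raag_lift {G : Type} [Group G] (f : V → G) (h : ∀ u v, Γ.Adj u v → f u * f v = f v * f u) :
    ∃ φ : Raag Γ →* G, ∀ v, φ (.of v) = f v :=
  ⟨PresentedGroup.toGroup (f := f) (by
    rintro _ ⟨u, v, huv, rfl⟩
    simp [h u v huv]), fun _ => PresentedGroup.toGroup.of _⟩

/-- The data that are used from the group. -/
structure Dat (Γ : SimpleGraph V) {G : Type} [Group G] (l : V → G → ℤ) (γ : V → G) : Prop where
  add : ∀ v g h, l v (g * h) = l v g + l v h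
  gen : ∀ u v, l u (γ v) = if u = v then 1 else 0
  com : ∀ u v, Γ.Adj u v → Commute (γ u) (γ v)
  nul : ∀ s t, s ≠ t → ¬Γ.Adj s t → ∃ z : G → ℤ, ∀ g h, z (g * h) = z g + z h + l s h * l t g

theorem exists_dat {G : Type} [Group G] (E : G ≃* Raag Γ) : ∃ l γ, Dat Γ (G := G) l γ := by
  choose φ hφ using fun u : V => raag_lift (Γ := Γ)
    (fun v => Multiplicative.ofAdd (if u = v then 1 else 0 : ℤ)) fun _ _ _ => mul_comm _ _
  refine ⟨fun u g => (φ u (E g)).toAdd, fun v => E.symm (.of v), fun v g h => by simp,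
    fun u v => by simp [hφ], fun u v h => Commute.map ?_ E.symm, fun s t h1 h2 => ?_⟩
  · have h3 : (PresentedGroup.mk _ (.of u * .of v * (.of u)⁻¹ * (.of v)⁻¹) : Raag Γ) = 1 :=
      PresentedGroup.one_of_mem ⟨u, v, h, rfl⟩
    rw [map_mul, map_mul, map_mul, map_inv, map_inv, mul_inv_eq_one, mul_inv_eq_iff_eq_mul] at h3
    exact h3
  obtain ⟨ψ, hψ⟩ := raag_lift (Γ := Γ)
    (fun v => (⟨if s = v then 1 else 0, if t = v then 1 else 0, 0⟩ : He)) fun u v huv =>
      He.ext (add_comm _ _) (add_comm _ _) (by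
        change 0 + 0 + (if s = v then 1 else 0 : ℤ) * (if t = u then 1 else 0) =
          0 + 0 + (if s = u then 1 else 0) * (if t = v then 1 else 0)
        have h3 : ¬(s = v ∧ t = u) := fun ⟨a, b⟩ => h2 (a ▸ b ▸ huv.symm)
        have h4 : ¬(s = u ∧ t = v) := fun ⟨a, b⟩ => h2 (a ▸ b ▸ huv)
        split_ifs <;> simp_all)
  let px : He →* Multiplicative ℤ := ⟨⟨fun g => .ofAdd g.x, rfl⟩, fun _ _ => rfl⟩
  let py : He →* Multiplicative ℤ := ⟨⟨fun g => .ofAdd g.y, rfl⟩, fun _ _ => rfl⟩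
  have hx : px.comp ψ = φ s := PresentedGroup.ext fun v => by
    rw [MonoidHom.comp_apply, hψ, hφ]
    rfl
  have hy : py.comp ψ = φ t := PresentedGroup.ext fun v => by
    rw [MonoidHom.comp_apply, hψ, hφ]
    rfl
  refine ⟨fun g => (ψ (E g)).z, fun g h => ?_⟩
  beta_reduce
  rw [map_mul, map_mul, ← hx, ← hy]
  rfl

theorem indep {H I M : Type} [AddCommGroup H] [Fintype I] {p : ℕ} (hp : 1 < p) (w : I → H)
    (Φ : M → H →ₗ[ℤ] ℤ)
    (h : ∀ n : I → ℤ, (∀ m, ∑ i, n i * Φ m (w i) = 0) → ∀ i, (p : ℤ) ∣ n i) :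
    LinearIndependent ℤ w := by
  have h1 : ∀ (r : ℕ) (n : I → ℤ), (∀ m, ∑ i, n i * Φ m (w i) = 0) → ∀ i, (p : ℤ) ^ r ∣ n i := by
    intro r
    induction r with
    | zero => simp
    | succ r ih =>
      intro n hn i
      choose n' hn' using h n hn
      rw [hn' i, pow_succ']
      refine mul_dvd_mul_left _ (ih n' (fun m => ?_) i)
      have h2 := hn m
      simp only [hn', mul_assoc, ← Finset.mul_sum] at h2
      exact (mul_eq_zero.1 h2).resolve_left (by omega)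
  refine Fintype.linearIndependent_iff.2 fun n hn i => ?_
  refine Int.eq_zero_of_dvd_of_natAbs_lt_natAbs (h1 (n i).natAbs n (fun m => ?_) i) ?_
  · simpa using congrArg (Φ m) hn
  · rw [Int.natAbs_pow, Int.natAbs_natCast]
    exact Nat.lt_pow_self hp

variable {X : Type} [TopologicalSpace X] {c : Sx X 4 →₀ ℤ}

theorem ev_eq {A : Type} [AddCommGroup A] (hc : bd X 3 c = 0) {P Q : Sx X 4 → A} (F : Sx X 3 → A)
    (h : ∀ σ, P σ = Q σ + (F (face ![1, 2, 3, 4] σ) - F (face ![0, 2, 3, 4] σ) +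
      F (face ![0, 1, 3, 4] σ) - F (face ![0, 1, 2, 4] σ) + F (face ![0, 1, 2, 3] σ))) :
    linearCombination ℤ P c = linearCombination ℤ Q c := by
  have h1 := ev_bd F c
  rw [hc, map_zero, funext (sum5 F)] at h1
  rw [funext h, ← add_zero (linearCombination ℤ Q c), h1]
  simp only [linearCombination_apply, Finsupp.sum, smul_add, Finset.sum_add_distrib]

theorem ev_neg (P : Sx X 4 → ℤ) :
    -linearCombination ℤ P c = linearCombination ℤ (fun σ => -P σ) c := by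
  simp only [linearCombination_apply, Finsupp.sum, smul_neg, Finset.sum_neg_distrib]

/-- A 2-cocycle. -/
def Co (φ : Sx X 2 → ℤ) : Prop :=
  ∀ τ : Sx X 3, φ (e3 τ 1 2 3) - φ (e3 τ 0 2 3) + φ (e3 τ 0 1 3) - φ (e3 τ 0 1 2) = 0

theorem co_iff {φ : Sx X 2 → ℤ} : linearCombination ℤ φ ∘ₗ bd X 2 = 0 ↔ Co φ := by
  constructor
  · intro h τ
    have h1 := LinearMap.congr_fun h (single τ 1)
    rwa [LinearMap.comp_apply, ev_bd, linearCombination_single, one_smul, sum4] at h1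
  · intro h
    refine LinearMap.ext fun w => ?_
    rw [LinearMap.comp_apply, ev_bd, funext (sum4 φ), funext h]
    simp [linearCombination_apply]

theorem Co.four {φ : Sx X 2 → ℤ} (h : Co φ) (σ : Sx X 4) (i j k l : Fin 5) :
    φ (e3 σ j k l) - φ (e3 σ i k l) + φ (e3 σ i j l) - φ (e3 σ i j k) = 0 := by
  simpa only [e3_face, Matrix.cons_val_zero, Matrix.cons_val_one, Matrix.cons_val] using
    h (face ![i, j, k, l] σ)

theorem ev_cap (φ ψ : Sx X 2 → ℤ) : linearCombination ℤ ψ (cap φ c) =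
    linearCombination ℤ (fun σ => φ (e3 σ 0 1 2) * ψ (e3 σ 2 3 4)) c := by
  rw [cap, apply_linearCombination]
  congr 2
  funext σ
  simp only [Function.comp, linearCombination_single, smul_eq_mul, e3]

theorem cap_cyc (hc : bd X 3 c = 0) {φ : Sx X 2 → ℤ} (h : Co φ) : bd X 1 (cap φ c) = 0 := by
  have h1 : bd X 1 (cap φ c) = linearCombination ℤ (fun σ => φ (e3 σ 0 1 2) •
      (single (e2 σ 3 4) (1 : ℤ) - single (e2 σ 2 4) 1 + single (e2 σ 2 3) 1)) c := by
    rw [cap, apply_linearCombination]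
    congr 2
    funext σ
    have h2 := sum3 (fun e => single e (1 : ℤ)) (face ![2, 3, 4] σ)
    simp only [e2_face, Matrix.cons_val_zero, Matrix.cons_val_one, Matrix.cons_val,
      smul_single, smul_eq_mul, mul_one] at h2
    simp only [Function.comp, bd, linearCombination_single, e3, h2]
  rw [h1, ev_eq hc (Q := fun _ => 0) (fun τ => φ (e3 τ 0 1 2) • single (e2 τ 2 3) (1 : ℤ))
    fun σ => ?_]
  · simp [linearCombination_apply]
  simp only [e2_face, e3_face, Matrix.cons_val_zero, Matrix.cons_val_one, Matrix.cons_val]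
  have h2 : φ (e3 σ 1 2 3) = φ (e3 σ 0 2 3) - φ (e3 σ 0 1 3) + φ (e3 σ 0 1 2) := by
    linarith [h.four σ 0 1 2 3]
  rw [h2]
  module

variable [PathConnectedSpace X] {x₀ : X} {l : V → FundamentalGroup X x₀ → ℤ}
  {γ : V → FundamentalGroup X x₀}

variable (l) in
/-- The cup product of two of the basic classes of degree one. -/
noncomputable def xx (u v : V) (σ : Sx X 2) : ℤ :=
  l u (gg x₀ (e2 σ 0 1)) * l v (gg x₀ (e2 σ 1 2))

variable (l c) in
/-- The fourfold cup products evaluated on `c`. -/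
noncomputable def om (s t u v : V) : ℤ := linearCombination ℤ (fun σ => l s (gg x₀ (e2 σ 0 1)) *
  l t (gg x₀ (e2 σ 1 2)) * l u (gg x₀ (e2 σ 2 3)) * l v (gg x₀ (e2 σ 3 4))) c

theorem Dat.co (D : Dat Γ l γ) (v : V) {n : ℕ} (σ : Sx X n) (i j k : Fin (n + 1)) :
    l v (gg x₀ (e2 σ i k)) = l v (gg x₀ (e2 σ i j)) + l v (gg x₀ (e2 σ j k)) := by
  rw [gg_co x₀ σ i j k, D.add, add_comm]

omit [DecidableEq V] in
theorem xx_e3 (u v : V) {n : ℕ} (σ : Sx X n) (i j k : Fin (n + 1)) :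
    xx l u v (e3 σ i j k) = l u (gg x₀ (e2 σ i j)) * l v (gg x₀ (e2 σ j k)) := by
  simp only [xx, e3, e2_face, Matrix.cons_val_zero, Matrix.cons_val_one, Matrix.cons_val]

theorem Dat.xx_co (D : Dat Γ l γ) (u v : V) : Co (xx l u v) := fun τ => by
  simp only [xx_e3, D.co _ τ 0 1 2, D.co _ τ 1 2 3]
  ring

theorem Dat.comm (D : Dat Γ l γ) (hc : bd X 3 c = 0) (u v : V) {y : Sx X 2 → ℤ} (h : Co y) :
    linearCombination ℤ y (cap (xx l u v) c) = linearCombination ℤ (xx l u v) (cap y c) := by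
  rw [ev_cap, ev_cap]
  refine ev_eq hc (fun τ => l u (gg x₀ (e2 τ 0 1)) * y (e3 τ 1 2 3) * l v (gg x₀ (e2 τ 1 3)) -
    y (e3 τ 0 1 2) * l u (gg x₀ (e2 τ 0 2)) * l v (gg x₀ (e2 τ 2 3))) fun σ => ?_
  simp only [xx_e3, e2_face, e3_face, Matrix.cons_val_zero, Matrix.cons_val_one, Matrix.cons_val,
    D.co _ σ 0 1 2, D.co _ σ 0 1 3, D.co _ σ 1 2 3, D.co _ σ 1 2 4, D.co _ σ 2 3 4]
  have h1 := h.four σ 1 2 3 4
  have h2 := h.four σ 0 1 2 3
  linear_combination (l u (gg x₀ (e2 σ 0 1)) * (l v (gg x₀ (e2 σ 1 2)) + l v (gg x₀ (e2 σ 2 3)) +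
    l v (gg x₀ (e2 σ 3 4)))) * h1 + ((l u (gg x₀ (e2 σ 0 1)) + l u (gg x₀ (e2 σ 1 2)) +
    l u (gg x₀ (e2 σ 2 3))) * l v (gg x₀ (e2 σ 3 4))) * h2

omit [DecidableEq V] in
theorem om_eq (s t u v : V) :
    linearCombination ℤ (xx l u v) (cap (xx l s t) c) = om c l s t u v := by
  simp only [ev_cap, xx_e3, om, mul_assoc]

theorem Dat.sw1 (D : Dat Γ l γ) (hc : bd X 3 c = 0) (s t u v : V) :
    om c l s t u v = -om c l t s u v := by
  rw [om, om, ev_neg]
  refine ev_eq hc (fun τ => -(l s (gg x₀ (e2 τ 0 1)) * l t (gg x₀ (e2 τ 0 1)) *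
    l u (gg x₀ (e2 τ 1 2)) * l v (gg x₀ (e2 τ 2 3)))) fun σ => ?_
  simp only [e2_face, Matrix.cons_val_zero, Matrix.cons_val_one, Matrix.cons_val,
    D.co _ σ 0 1 2, D.co _ σ 1 2 3, D.co _ σ 2 3 4]
  ring

theorem Dat.sw2 (D : Dat Γ l γ) (hc : bd X 3 c = 0) (s t u v : V) :
    om c l s t u v = -om c l s u t v := by
  rw [om, om, ev_neg]
  refine ev_eq hc (fun τ => l s (gg x₀ (e2 τ 0 1)) * l t (gg x₀ (e2 τ 1 2)) *
    l u (gg x₀ (e2 τ 1 2)) * l v (gg x₀ (e2 τ 2 3))) fun σ => ?_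
  simp only [e2_face, Matrix.cons_val_zero, Matrix.cons_val_one, Matrix.cons_val,
    D.co _ σ 0 1 2, D.co _ σ 1 2 3, D.co _ σ 2 3 4]
  ring

theorem Dat.sw3 (D : Dat Γ l γ) (hc : bd X 3 c = 0) (s t u v : V) :
    om c l s t u v = om c l u v s t := by
  rw [← om_eq, ← om_eq, D.comm hc s t (D.xx_co u v)]

theorem Dat.zero (D : Dat Γ l γ) (hc : bd X 3 c = 0) {s t : V} (h : ¬Γ.Adj s t) (u v : V) :
    om c l s t u v = 0 := by
  rcases eq_or_ne s t with rfl | h1
  · linarith [D.sw1 hc s s u v]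
  obtain ⟨z, hz⟩ := D.nul s t h1 h
  rw [om, ev_eq hc (Q := fun _ => 0) (fun τ => -(z (gg x₀ (e2 τ 0 1)) *
    l u (gg x₀ (e2 τ 1 2)) * l v (gg x₀ (e2 τ 2 3)))) fun σ => ?_]
  · simp [linearCombination_apply]
  simp only [e2_face, Matrix.cons_val_zero, Matrix.cons_val_one, Matrix.cons_val,
    gg_co x₀ σ 0 1 2, hz, D.co _ σ 1 2 3, D.co _ σ 2 3 4]
  ring

/-- An alternating function of four vertices that vanishes off the cliques. -/
structure Alt (Γ : SimpleGraph V) (ω : V → V → V → V → ℤ) : Prop where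
  sw1 : ∀ s t u v, ω s t u v = -ω t s u v
  sw2 : ∀ s t u v, ω s t u v = -ω s u t v
  sw3 : ∀ s t u v, ω s t u v = ω u v s t
  zero : ∀ s t u v, ¬Γ.Adj s t → ω s t u v = 0

theorem core (E : FundamentalGroup X x₀ ≃* Raag Γ) (hc : Dual c) {ι J : Type} [Fintype ι]
    [Fintype J] (a b : ι → V) (hab : ∀ i, Γ.Adj (a i) (b i))
    (hi : Function.Injective fun i => s(a i, b i)) {p : ℕ} (hp : p.Prime)
    (h : ∀ ω, Alt Γ ω → ∃ (κ : J → ι → ℤ) (o : J → ι), (∀ j, ¬(p : ℤ) ∣ κ j (o j)) ∧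
      (∀ j j', j' ≠ j → κ j' (o j) = 0) ∧
      ∀ j i, (p : ℤ) ∣ ∑ i', κ j i' * ω (a i') (b i') (a i) (b i)) :
    ((Fintype.card ι + Fintype.card J : ℕ) : Cardinal) ≤ Module.rank ℤ (H2 X) := by
  classical
  obtain ⟨l, γ, D⟩ := exists_dat E
  obtain ⟨κ, o, k1, k2, k3⟩ := h (om c l) ⟨D.sw1 hc.1, D.sw2 hc.1, D.sw3 hc.1,
    fun s t u v h => D.zero hc.1 h u v⟩
  have l1 : ∀ v, l v 1 = 0 := fun v => by simpa using D.add v 1 1
  choose t t1 t2 using fun i => torus x₀ (D.com _ _ (hab i))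
  choose y w y1 y2 using fun i => hc.2 (t i) (t1 i)
  have t3 : ∀ i i', linearCombination ℤ (xx l (a i) (b i)) (t i') = if i = i' then 1 else 0 := by
    intro i i'
    rw [show xx l (a i) (b i) = fun σ => l (a i) (gg x₀ (e2 σ 0 1)) * l (b i) (gg x₀ (e2 σ 1 2))
      from rfl, t2 i' _ _ (l1 _) (l1 _)]
    simp only [D.gen]
    have h1 := (hab i).ne
    by_cases h2 : i = i'
    · subst h2
      simp [h1, h1.symm]
    have h3 : ¬s(a i, b i) = s(a i', b i') := fun e => h2 (hi e)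
    rw [Sym2.eq_iff, not_or] at h3
    rw [if_neg h2]
    split_ifs <;> simp_all
  have y3 : ∀ i i', linearCombination ℤ (y i) (cap (xx l (a i') (b i')) c) =
      if i' = i then 1 else 0 := fun i i' => by
    have h1 := LinearMap.congr_fun (co_iff.2 (D.xx_co (a i') (b i'))) (w i)
    rw [LinearMap.comp_apply, LinearMap.zero_apply] at h1
    rw [D.comm hc.1 _ _ (co_iff.1 (y1 i)), ← t3, y2 i, map_add, h1, add_zero]
  let φ : ι ⊕ ι → Sx X 2 → ℤ := Sum.elim (fun i => xx l (a i) (b i)) y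
  have hφ : ∀ m, linearCombination ℤ (φ m) ∘ₗ bd X 2 = 0 :=
    Sum.forall.2 ⟨fun i => co_iff.2 (D.xx_co _ _), y1⟩
  let Φ : ι ⊕ ι → H2 X →ₗ[ℤ] ℤ := fun m => Submodule.liftQ _
    (linearCombination ℤ (φ m) ∘ₗ (LinearMap.ker (bd X 1)).subtype) (by
      rintro ⟨_, h1⟩ ⟨z, rfl⟩
      exact LinearMap.congr_fun (hφ m) z)
  let z : ι ⊕ J → LinearMap.ker (bd X 1) := Sum.elim (fun i => ⟨t i, t1 i⟩) fun j =>
    ∑ i, κ j i • ⟨cap (xx l (a i) (b i)) c, cap_cyc hc.1 (D.xx_co _ _)⟩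
  have h1 : LinearIndependent ℤ fun i => (Submodule.Quotient.mk (z i) : H2 X) := by
    refine indep hp.one_lt _ Φ fun n hn => ?_
    have e : ∀ m i, Φ m (Submodule.Quotient.mk (z i)) = linearCombination ℤ (φ m) (z i) :=
      fun _ _ => rfl
    simp only [e, Fintype.sum_sum_type, z, Sum.elim_inl, Sum.elim_inr,
      AddSubmonoidClass.coe_finsetSum, SetLike.val_smul, map_sum, map_smul, smul_eq_mul] at hn
    have n1 : ∀ i, (p : ℤ) ∣ n (.inl i) := fun i => by
      have h2 := hn (.inl i)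
      simp only [φ, Sum.elim_inl, t3, om_eq, mul_ite, mul_one, mul_zero, Finset.sum_ite_eq,
        Finset.mem_univ, if_true] at h2
      rw [eq_neg_of_add_eq_zero_left h2]
      exact (Finset.dvd_sum fun j _ => (k3 j i).mul_left _).neg_right
    refine Sum.forall.2 ⟨n1, fun j => ?_⟩
    have h2 := hn (.inr (o j))
    simp only [φ, Sum.elim_inr, y3, mul_ite, mul_one, mul_zero, Finset.sum_ite_eq',
      Finset.mem_univ, if_true] at h2
    rw [Finset.sum_eq_single j (fun j' _ h => by rw [k2 j j' h, mul_zero]) (by simp)] at h2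
    have h3 : (p : ℤ) ∣ n (.inr j) * κ j (o j) := by
      rw [eq_neg_of_add_eq_zero_right h2]
      exact (Finset.dvd_sum fun i _ => (n1 i).mul_right _).neg_right
    exact ((Nat.prime_iff_prime_int.1 hp).dvd_or_dvd h3).resolve_right (k1 j)
  simpa using h1.cardinal_le_rank

end Pool.Agent.Lib.MP_e039bb_gt
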