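import Mathlib

/-! Singular chains, orientations, right-angled Artin groups and their cup product forms. -/

namespace Pool.Agent.Lib.MP_e039bb_gt

open Finsupp

/-- The singular `n`-simplices of `X`. -/
abbrev Sx (X : Type) [TopologicalSpace X] (n : ℕ) : Type := C(stdSimplex ℝ (Fin (n + 1)), X)

variable {X : Type} [TopologicalSpace X]

/-- The face of `σ` with the vertices `f 0, …, f m`. -/
noncomputable def face {m n : ℕ} (f : Fin (m + 1) → Fin (n + 1)) (σ : Sx X n) : Sx X m :=
  σ.comp ⟨stdSimplex.map f, stdSimplex.continuous_map f⟩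

/-- The boundary map of the integral singular chains. -/
noncomputable def bd (X : Type) [TopologicalSpace X] (n : ℕ) :
    (Sx X (n + 1) →₀ ℤ) →ₗ[ℤ] (Sx X n →₀ ℤ) :=
  linearCombination ℤ fun σ => ∑ i : Fin (n + 2), single (face i.succAbove σ) ((-1) ^ (i : ℕ))

/-- The second integral singular homology group. -/
abbrev H2 (X : Type) [TopologicalSpace X] : Type :=
  LinearMap.ker (bd X 1) ⧸ (LinearMap.range (bd X 2)).submoduleOf (LinearMap.ker (bd X 1))

/-- The second Betti number. -/
noncomputable def b2 (X : Type) [TopologicalSpace X] : Cardinal := Module.rank ℤ (H2 X)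

/-- The simplices of the chain `z` lie in the complement of `K`. -/
def Away (K : Set X) {n : ℕ} (z : Sx X n →₀ ℤ) : Prop := ∀ σ ∈ z.support, ∀ t, σ t ∉ K

/-- The chain `z` is a boundary relative to the complement of `K`. -/
def Null (K : Set X) {n : ℕ} (z : Sx X n →₀ ℤ) : Prop := ∃ w, Away K (z - bd X n w)

/-- There are generators `μ x` of the groups `H₄ (X, X ∖ x; ℤ)` that come, for `x` in a
neighbourhood `U` of any point, from one class in `H₄ (X, X ∖ U; ℤ)`. -/
def Orientable (X : Type) [TopologicalSpace X] : Prop :=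
  ∃ μ : X → (Sx X 4 →₀ ℤ),
    (∀ x, Away {x} (bd X 3 (μ x)) ∧
      ∀ z, Away {x} (bd X 3 z) → ∃ k : ℤ, Null {x} (z - k • μ x)) ∧
    ∀ x, ∃ U ∈ nhds x, ∃ z, Away U (bd X 3 z) ∧ ∀ y ∈ U, Null {y} (z - μ y)

variable {V : Type} (Γ : SimpleGraph V)

/-- The right-angled Artin group of a graph. -/
abbrev Raag : Type :=
  PresentedGroup {r : FreeGroup V | ∃ u v, Γ.Adj u v ∧
    r = .of u * .of v * (.of u)⁻¹ * (.of v)⁻¹}

open Classical in
/-- The cup product form on `H ^ 2 (Raag Γ; ℤ / 2)` (basis: the edges) of the class in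
`H₄ (Raag Γ; ℤ / 2)` (basis: the 4-cliques) with the coefficients `α`. -/
noncomputable def form (α : Finset V → ZMod 2) : Matrix Γ.edgeSet Γ.edgeSet (ZMod 2) :=
  .of fun e f => if Γ.IsNClique 4 (e.1.toFinset ∪ f.1.toFinset) then
    α (e.1.toFinset ∪ f.1.toFinset) else 0

open Classical in
/-- The largest rank of these forms. -/
noncomputable def m2 [Fintype V] : ℕ := ⨆ α, (form Γ α).rank

end Pool.Agent.Lib.MP_e039bb_gt
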