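import Pool.Agent.Lib.MP_e039bb_gt.Tab

/-! The form of the example is invertible modulo two and never invertible modulo three. -/

namespace Pool.Agent.Lib.MP_e039bb_gt

open Finset

/-- Adjacency. -/
def ad (s t : ℕ) : Bool := tAd.testBit (38 * (s % 38) + t % 38)

/-- The first end of an edge. -/
def ea (i : ℕ) : ℕ := tEa >>> (6 * i) % 64

/-- The second end of an edge. -/
def eb (i : ℕ) : ℕ := tEb >>> (6 * i) % 64

/-- Two edges span a clique with four vertices. -/
def cl (i j : ℕ) : Bool :=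
  ad (ea i) (ea j) && ad (ea i) (eb j) && ad (eb i) (ea j) && ad (eb i) (eb j)

/-- A row of the form modulo two. -/
def row (j : ℕ) : ℕ := tRow >>> (154 * j) % 2 ^ 154

/-- A sum of rows. -/
def xa (i : ℕ) : ℕ → ℕ
  | 0 => 0
  | j + 1 => if tInv.testBit (154 * i + j) then xa i j ^^^ row j else xa i j

theorem ad_symm : ∀ s < 38, ∀ t < 38, ad s t = ad t s := by decide +kernel

theorem ad_irr : ∀ s < 38, ad s s = false := by decide +kernel

theorem e_lt : ∀ i < 154, ea i < eb i ∧ eb i < 38 ∧ ad (ea i) (eb i) = true := by decide +kernel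

theorem e_inj : ∀ i < 154, ∀ j < 154, ea i = ea j → eb i = eb j → i = j := by decide +kernel

theorem e_sur : ∀ t < 38, ∀ s < t, ad s t = true → ∃ i < 154, ea i = s ∧ eb i = t := by
  decide +kernel

theorem row_eq : ∀ j < 154, ∀ i < 154, (row j).testBit i = cl j i := by decide +kernel

theorem xa_eq : ∀ i < 154, xa i 154 = 2 ^ i := by decide +kernel

theorem ker2 (κ : ℕ → ZMod 2)
    (h : ∀ j < 154, ∑ i ∈ range 154, (if cl j i then κ i else 0) = 0) : ∀ i < 154, κ i = 0 := by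
  intro i hi
  let val : ℕ → ZMod 2 := fun M => ∑ i ∈ range 154, if M.testBit i then κ i else 0
  have h1 : ∀ x y, val (x ^^^ y) = val x + val y := fun x y => by
    simp only [val, ← sum_add_distrib, Nat.testBit_xor]
    refine sum_congr rfl fun i _ => ?_
    cases x.testBit i <;> cases y.testBit i <;> simp [CharTwo.add_self_eq_zero]
  have h2 : ∀ j < 154, val (row j) = 0 := fun j hj =>
    (sum_congr rfl fun i hi => by rw [row_eq j hj i (mem_range.1 hi)]).trans (h j hj)
  have h3 : ∀ n ≤ 154, val (xa i n) = 0 := fun n hn => by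
    induction n with
    | zero => simp [val, xa]
    | succ n ih =>
      rw [xa]
      split_ifs
      · rw [h1, ih (by omega), h2 n hn, add_zero]
      · exact ih (by omega)
  have h4 := h3 154 le_rfl
  rw [xa_eq i hi] at h4
  simpa [val, Nat.testBit_two_pow, hi] using h4

/-- The ends of two edges in increasing order. -/
def srt (s t u v : ℕ) : ℕ × ℕ × ℕ × ℕ :=
  if t < u then (s, t, u, v) else if v < s then (u, v, s, t) else
    if s < u then (if t < v then (s, u, t, v) else (s, u, v, t)) else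
      if v < t then (u, s, v, t) else (u, s, t, v)

/-- The sign of the rearrangement. -/
def sg (s t u v : ℕ) : ZMod 3 :=
  if t < u then 1 else if v < s then 1 else
    if s < u then (if t < v then -1 else 1) else if v < t then -1 else 1

/-- The cliques. -/
def tab (c : ℕ) : ℕ × ℕ × ℕ × ℕ := (tCl >>> (24 * c) % 64, tCl >>> (24 * c + 6) % 64,
  tCl >>> (24 * c + 12) % 64, tCl >>> (24 * c + 18) % 64)

/-- The number of the clique that two edges span. -/
def ci (i j : ℕ) : ℕ :=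
  (List.range 55).findIdx fun c => decide (tab c = srt (ea i) (eb i) (ea j) (eb j))

/-- The sign for two edges. -/
def se (i j : ℕ) : ZMod 3 := sg (ea i) (eb i) (ea j) (eb j)

/-- The free diagonal of a square. -/
def lf (c : ℕ) : ℕ := tLf >>> (8 * c) % 256

/-- The other diagonal. -/
def co (c : ℕ) : ℕ := tCo >>> (8 * c) % 256

/-- The sign of an entry of the kernel vector. -/
def ks (i : ℕ) : ℕ := tKs >>> (2 * i) % 4

/-- The monomial of an entry of the kernel vector. -/
def km (i : ℕ) : ℕ := tKm >>> (40 * i) % 2 ^ 40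

/-- The monomial of a row. -/
def rm (i : ℕ) : ℕ := tRm >>> (40 * i) % 2 ^ 40

theorem ci_eq' : ∀ i < 154, ∀ j < 154, (!(row i).testBit j ||
    decide (tab (ci i j) = srt (ea i) (eb i) (ea j) (eb j))) = true := by decide +kernel

theorem ci_eq : ∀ i < 154, ∀ j < 154, (row i).testBit j = true →
    tab (ci i j) = srt (ea i) (eb i) (ea j) (eb j) := fun i hi j hj h => by
  simpa [h] using ci_eq' i hi j hj

theorem lf_1 : ∀ c < 39, c ≠ 0 → lf c < 154 ∧ co c < 154 ∧ lf c ≠ 41 := by decide +kernel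

theorem lf_2 : ∀ c < 39, c ≠ 0 → ci (lf c) (co c) = c ∧ row (lf c) = 2 ^ co c := by decide +kernel

theorem lf_3 : ∀ c < 39, se (lf c) (co c) * se (lf c) (co c) = 1 := by decide +kernel

theorem lf_4 : ∀ c < 39, ∀ c' < 39, c ≠ 0 → c' ≠ 0 → co c = co c' → c = c' := by decide +kernel

theorem cm_spec : ∀ j < 154, tCm.testBit j = true → ∃ c < 39, c ≠ 0 ∧ co c = j := by
  decide +kernel

theorem km_spec' : ∀ j < 154, ∀ i < 154, (tCm.testBit j || !(row i).testBit j || ks i == 0 ||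
    (decide (ci i j < 39) && (ci i j != 0 || !(km i).testBit 0) &&
      km i ^^^ 2 ^ ci i j == rm j)) = true := by decide +kernel

theorem km_spec : ∀ j < 154, tCm.testBit j = false → ∀ i < 154, (row i).testBit j = true →
    ks i ≠ 0 → ci i j < 39 ∧ (ci i j = 0 → (km i).testBit 0 = false) ∧
      km i ^^^ 2 ^ ci i j = rm j := fun j hj h1 i hi h2 h3 => by
  have h := km_spec' j hj i hi
  simp only [h1, h2, Bool.not_true, Bool.or_self, Bool.false_or, Bool.or_eq_true, beq_iff_eq, h3,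
    false_or, Bool.and_eq_true, decide_eq_true_eq, bne_iff_ne, Bool.not_eq_eq_eq_not] at h
  exact ⟨h.1.1, fun e => h.1.2.resolve_left fun h => h e, h.2⟩

theorem ks_spec : ∀ j < 154, tCm.testBit j = false →
    ∑ i ∈ range 154, (if (row i).testBit j then (ks i : ZMod 3) * se i j else 0) = 0 := by
  decide +kernel

theorem u_spec : ks 41 = 1 ∧ km 41 = 0 := by decide +kernel

theorem leaf {n : ℕ} (B : ℕ → ℕ → ZMod 3) (S : Finset ℕ) (lf co : ℕ → ℕ) (h0 : ∀ c ∈ S, lf c < n)
    (h1 : ∀ c ∈ S, ∀ j < n, j ≠ co c → B (lf c) j = 0)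
    (h2 : ∀ c ∈ S, B (lf c) (co c) * B (lf c) (co c) = 1)
    (hi : ∀ c ∈ S, ∀ c' ∈ S, co c = co c' → c = c') (κ₀ : ℕ → ZMod 3)
    (h3 : ∀ j < n, (∀ c ∈ S, co c ≠ j) → ∑ i ∈ range n, κ₀ i * B i j = 0) :
    ∃ κ : ℕ → ZMod 3, (∀ i, (∀ c ∈ S, lf c ≠ i) → κ i = κ₀ i) ∧
      ∀ j < n, ∑ i ∈ range n, κ i * B i j = 0 := by
  obtain ⟨r, hr⟩ : ∃ r : ℕ → ZMod 3, ∀ j, r j = ∑ i ∈ range n, κ₀ i * B i j := ⟨_, fun _ => rfl⟩
  refine ⟨fun i => κ₀ i - ∑ c ∈ S, if lf c = i then r (co c) * B (lf c) (co c) else 0,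
    fun i h => ?_, fun j hj => ?_⟩
  · beta_reduce
    rw [sum_eq_zero fun c hc => if_neg (h c hc), sub_zero]
  simp only [sub_mul, sum_sub_distrib, ← hr, sum_mul, ite_mul, zero_mul]
  rw [sum_comm, sum_congr rfl fun c hc => (sum_ite_eq _ _ _).trans (if_pos (mem_range.2 (h0 c hc))),
    sub_eq_zero]
  by_cases h : ∃ c ∈ S, co c = j
  · obtain ⟨c, hc, rfl⟩ := h
    rw [sum_eq_single c (fun c' hc' h => by
      rw [h1 c' hc' _ hj fun e => h (hi c hc c' hc' e).symm, mul_zero]) fun h => (h hc).elim,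
      mul_assoc, h2 c hc, mul_one]
  · push Not at h
    rw [hr, h3 j hj h, sum_eq_zero fun c hc => by rw [h1 c hc j hj (h c hc).symm, mul_zero]]

theorem mono_xor (α : ℕ → ZMod 3) {M c : ℕ} (hc : c < 39)
    (h : M.testBit c = false ∨ α c * α c = 1) :
    ∏ d ∈ range 39, (if (M ^^^ 2 ^ c).testBit d then α d else 1) =
      α c * ∏ d ∈ range 39, if M.testBit d then α d else 1 := by
  rw [← mul_prod_erase _ _ (mem_range.2 hc), ← mul_prod_erase (range 39) _ (mem_range.2 hc),
    ← mul_assoc]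
  congr 1
  · rw [Nat.testBit_xor, Nat.testBit_two_pow_self]
    cases h1 : M.testBit c
    · simp
    · simp [h.resolve_left (by simp [h1])]
  · refine prod_congr rfl fun d hd => ?_
    rw [Nat.testBit_xor, Nat.testBit_two_pow_of_ne (ne_of_mem_erase hd).symm, Bool.xor_false]

theorem ker3 (ω : ℕ → ℕ → ℕ → ℕ → ZMod 3) (s1 : ∀ s t u v, ω s t u v = -ω t s u v)
    (s2 : ∀ s t u v, ω s t u v = -ω s u t v) (s3 : ∀ s t u v, ω s t u v = ω u v s t)
    (hz : ∀ s t u v, ad s t = false → ω s t u v = 0) : ∃ κ : ℕ → ZMod 3, (∃ o < 154, κ o ≠ 0) ∧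
      ∀ j < 154, ∑ i ∈ range 154, κ i * ω (ea i) (eb i) (ea j) (eb j) = 0 := by
  have s4 : ∀ s t u v, ω s t u v = -ω s t v u := fun s t u v => by rw [s3, s1, s3]
  let α : ℕ → ZMod 3 := fun c => ω (tab c).1 (tab c).2.1 (tab c).2.2.1 (tab c).2.2.2
  have h1 : ∀ s t u v, ω s t u v = sg s t u v *
      ω (srt s t u v).1 (srt s t u v).2.1 (srt s t u v).2.2.1 (srt s t u v).2.2.2 := by
    intro s t u v
    unfold sg srt
    split_ifs <;> simp only [one_mul, neg_mul]
    · exact s3 ..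
    · exact s2 ..
    · rw [s2, s4, neg_neg]
    · rw [s3, s2]
    · rw [s3, s2, s4, neg_neg]
  have h2 : ∀ i < 154, ∀ j < 154, ω (ea i) (eb i) (ea j) (eb j) =
      if (row i).testBit j then se i j * α (ci i j) else 0 := by
    intro i hi j hj
    split_ifs with h
    · simp only [α, ci_eq i hi j hj h]
      exact h1 ..
    rw [row_eq i hi j hj, cl] at h
    simp only [Bool.and_eq_true, not_and_or, Bool.not_eq_true] at h
    rcases h with ((h | h) | h) | h
    · rw [s2, hz _ _ _ _ h, neg_zero]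
    · rw [s4, s2, hz _ _ _ _ h, neg_zero, neg_zero]
    · rw [s1, s2, hz _ _ _ _ h, neg_zero, neg_zero]
    · rw [s1, s4, s2, hz _ _ _ _ h, neg_zero, neg_zero, neg_zero]
  have hS : ∀ c ∈ (range 39).erase 0, c < 39 ∧ c ≠ 0 := fun c hc =>
    ⟨mem_range.1 (mem_of_mem_erase hc), ne_of_mem_erase hc⟩
  have h3 : ∀ c < 39, c ≠ 0 → ∀ j < 154, ω (ea (lf c)) (eb (lf c)) (ea j) (eb j) =
      if j = co c then se (lf c) (co c) * α c else 0 := fun c c1 c2 j hj => by
    obtain ⟨a4, a5⟩ := lf_2 c c1 c2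
    rw [h2 _ (lf_1 c c1 c2).1 j hj, a5, Nat.testBit_two_pow]
    by_cases h : j = co c
    · simp [h, a4]
    · simp [h, Ne.symm h]
  by_cases h : ∃ c < 39, c ≠ 0 ∧ α c = 0
  · obtain ⟨c, c1, c2, c3⟩ := h
    have a1 := (lf_1 c c1 c2).1
    refine ⟨fun i => if lf c = i then 1 else 0, ⟨lf c, a1, by simp⟩, fun j hj => ?_⟩
    simp [h3 c c1 c2 j hj, c3]
  have h4 : ∀ c < 39, c ≠ 0 → α c * α c = 1 := fun c c1 c2 =>
    (by decide : ∀ a : ZMod 3, a ≠ 0 → a * a = 1) _ fun e => h ⟨c, c1, c2, e⟩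
  obtain ⟨κ, k1, k2⟩ := leaf (n := 154) (fun i j => ω (ea i) (eb i) (ea j) (eb j))
    ((range 39).erase 0) lf co (fun c hc => (lf_1 c (hS c hc).1 (hS c hc).2).1)
    (fun c hc j hj h => (h3 c (hS c hc).1 (hS c hc).2 j hj).trans (if_neg h))
    (fun c hc => by
      rw [h3 c (hS c hc).1 (hS c hc).2 _ (lf_1 c (hS c hc).1 (hS c hc).2).2.1, if_pos rfl,
        mul_mul_mul_comm, lf_3 c (hS c hc).1, h4 c (hS c hc).1 (hS c hc).2, one_mul])
    (fun c hc c' hc' => lf_4 c (hS c hc).1 c' (hS c' hc').1 (hS c hc).2 (hS c' hc').2)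
    (fun i => ks i * ∏ d ∈ range 39, if (km i).testBit d then α d else 1) fun j hj h5 => by
      have h6 : tCm.testBit j = false := by
        by_contra h6
        obtain ⟨c, c1, c2, c3⟩ := cm_spec j hj (by simpa using h6)
        exact h5 c (mem_erase.2 ⟨c2, mem_range.2 c1⟩) c3
      rw [← zero_mul (∏ d ∈ range 39, if (rm j).testBit d then α d else 1), ← ks_spec j hj h6,
        sum_mul]
      refine sum_congr rfl fun i hi => ?_
      rw [h2 i (mem_range.1 hi) j hj]
      split_ifs with h7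
      swap
      · rw [mul_zero, zero_mul]
      by_cases h8 : ks i = 0
      · simp [h8]
      obtain ⟨a1, a2, a3⟩ := km_spec j hj h6 i (mem_range.1 hi) h7 h8
      rw [← a3, mono_xor α a1 (by
        by_cases h9 : ci i j = 0
        · exact .inl (h9 ▸ a2 h9)
        · exact .inr (h4 _ a1 h9))]
      ring
  refine ⟨κ, ⟨41, by norm_num, ?_⟩, k2⟩
  rw [k1 41 fun c hc => (lf_1 c (hS c hc).1 (hS c hc).2).2.2, u_spec.1, u_spec.2]
  simp

end Pool.Agent.Lib.MP_e039bb_gt
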