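import Pool.Agent.Lib.MP_e039bb_gt.Core
import Pool.Agent.Lib.MP_e039bb_gt.Ex

/-! Right-angled Artin groups that are not cohomologically minimal. -/

namespace Pool.Agent.Lib.MP_e039bb_gt

open Finset

theorem clique_iff {V : Type} [DecidableEq V] {Γ : SimpleGraph V} {p q r w : V} (h1 : Γ.Adj p q)
    (h2 : Γ.Adj r w) : Γ.IsNClique 4 (s(p, q).toFinset ∪ s(r, w).toFinset) ↔
      ((Γ.Adj p r ∧ Γ.Adj p w) ∧ Γ.Adj q r) ∧ Γ.Adj q w := by
  have e : s(p, q).toFinset ∪ s(r, w).toFinset = {p, q, r, w} := by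
    rw [Sym2.toFinset_mk_eq, Sym2.toFinset_mk_eq, insert_union, singleton_union]
  rw [e]
  constructor
  · intro h
    have h3 : p ∉ ({q, r, w} : Finset V) := fun h3 => by
      have h4 := h.card_eq
      rw [insert_eq_of_mem h3] at h4
      exact absurd (h4 ▸ card_le_three) (by norm_num)
    have h4 : q ∉ ({p, r, w} : Finset V) := fun h3 => by
      have h4 := h.card_eq
      rw [insert_comm, insert_eq_of_mem h3] at h4
      exact absurd (h4 ▸ card_le_three) (by norm_num)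
    simp only [mem_insert, mem_singleton, not_or] at h3 h4
    exact ⟨⟨⟨h.isClique (by simp) (by simp) h3.2.1, h.isClique (by simp) (by simp) h3.2.2⟩,
      h.isClique (by simp) (by simp) h4.2.1⟩, h.isClique (by simp) (by simp) h4.2.2⟩
  · rintro ⟨⟨⟨a1, a2⟩, a3⟩, a4⟩
    refine (SimpleGraph.is3Clique_triple_iff.2 ⟨a3, a4, h2⟩).insert fun b hb => ?_
    simp only [mem_insert, mem_singleton] at hb
    rcases hb with rfl | rfl | rfl <;> assumption

variable {k : ℕ}

/-- The disjoint union of `k` copies of the example. -/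
def gr (k : ℕ) : SimpleGraph (Fin k × Fin 38) where
  Adj p q := p.1 = q.1 ∧ ad p.2 q.2 = true
  symm := ⟨fun p q h => ⟨h.1.symm, ad_symm _ p.2.2 _ q.2.2 ▸ h.2⟩⟩
  loopless := ⟨fun p h => by simpa [ad_irr _ p.2.2] using h.2⟩

/-- A vertex. -/
def vx (j : Fin k) (s : ℕ) : Fin k × Fin 38 := (j, Fin.ofNat 38 s)

theorem vx_adj {j j' : Fin k} {s t : ℕ} :
    (gr k).Adj (vx j s) (vx j' t) ↔ j = j' ∧ ad s t = true := by
  simp only [gr, vx, ad, Fin.val_ofNat, Nat.mod_mod]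

theorem vx_e (i : Fin k × Fin 154) : (gr k).Adj (vx i.1 (ea i.2)) (vx i.1 (eb i.2)) :=
  vx_adj.2 ⟨rfl, (e_lt _ i.2.2).2.2⟩

theorem vx_inj : Function.Injective fun i : Fin k × Fin 154 =>
    s(vx i.1 (ea i.2), vx i.1 (eb i.2)) := fun i i' h => by
  obtain ⟨a1, a2, -⟩ := e_lt _ i.2.2
  obtain ⟨b1, b2, -⟩ := e_lt _ i'.2.2
  simp only [Sym2.eq_iff, vx, Prod.mk.injEq, Fin.ext_iff, Fin.val_ofNat] at h
  exact Prod.ext (Fin.ext (by omega)) (Fin.ext (e_inj _ i.2.2 _ i'.2.2 (by omega) (by omega)))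

/-- The enumeration of the edges. -/
noncomputable def en (k : ℕ) : Fin k × Fin 154 ≃ (gr k).edgeSet :=
  .ofBijective (fun i => ⟨s(vx i.1 (ea i.2), vx i.1 (eb i.2)), vx_e i⟩)
    ⟨fun _ _ h => vx_inj (congrArg Subtype.val h), by
      have h0 : ∀ p q : Fin k × Fin 38, (gr k).Adj p q → (p.2 : ℕ) < q.2 →
          ∃ i : Fin k × Fin 154, s(vx i.1 (ea i.2), vx i.1 (eb i.2)) = s(p, q) := by
        rintro ⟨j, s⟩ ⟨j', t⟩ ⟨h1, h2⟩ h3
        obtain rfl : j = j' := h1
        obtain ⟨i, hi, a1, a2⟩ := e_sur _ t.2 _ h3 h2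
        exact ⟨(j, ⟨i, hi⟩), by simp [vx, a1, a2]⟩
      rintro ⟨⟨p, q⟩, h⟩
      have h1 : (gr k).Adj p q := h
      rcases lt_trichotomy (p.2 : ℕ) q.2 with h2 | h2 | h2
      · exact (h0 p q h1 h2).imp fun i hi => Subtype.ext hi
      · exact (h1.ne (Prod.ext h1.1 (Fin.ext h2))).elim
      · exact (h0 q p h1.symm h2).imp fun i hi => Subtype.ext (hi.trans Sym2.eq_swap)⟩

theorem card_e : Nat.card (gr k).edgeSet = 154 * k := by
  rw [← Nat.card_congr (en k)]
  simp [mul_comm]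

theorem form_en (i i' : Fin k × Fin 154) : form (gr k) (fun _ => 1) (en k i) (en k i') =
    if i.1 = i'.1 ∧ cl i.2 i'.2 = true then 1 else 0 := by
  have h := @clique_iff _ (fun a b => Classical.propDecidable (a = b)) _ _ _ _ _ (vx_e i) (vx_e i')
  have h1 : ((((gr k).Adj (vx i.1 (ea i.2)) (vx i'.1 (ea i'.2)) ∧
      (gr k).Adj (vx i.1 (ea i.2)) (vx i'.1 (eb i'.2))) ∧
      (gr k).Adj (vx i.1 (eb i.2)) (vx i'.1 (ea i'.2))) ∧
      (gr k).Adj (vx i.1 (eb i.2)) (vx i'.1 (eb i'.2))) ↔ i.1 = i'.1 ∧ cl i.2 i'.2 = true := by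
    simp only [vx_adj, cl, Bool.and_eq_true]
    tauto
  rw [form, Matrix.of_apply]
  by_cases h2 : i.1 = i'.1 ∧ cl i.2 i'.2 = true
  · rw [if_pos h2]
    exact if_pos ((h.trans h1).2 h2)
  · rw [if_neg h2]
    exact if_neg fun h3 => h2 ((h.trans h1).1 h3)

open Classical in
theorem m2_eq : m2 (gr k) = 154 * k := by
  have h1 : ∀ inst : Fintype (gr k).edgeSet, @Fintype.card _ inst = 154 * k := fun _ => by
    rw [← Nat.card_eq_fintype_card, card_e]
  unfold m2
  refine le_antisymm (ciSup_le fun α => (Matrix.rank_le_card_width _).trans (h1 _).le)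
    (le_ciSup_of_le (Set.finite_range _).bddAbove (fun _ => 1) ?_)
  rw [Matrix.rank_of_isUnit _ (Matrix.mulVec_injective_iff_isUnit.1 ?_), h1]
  refine (injective_iff_map_eq_zero (Matrix.mulVecLin _)).2 fun κ hκ => funext fun e => ?_
  obtain ⟨⟨j, i⟩, rfl⟩ := (en k).surjective e
  have h2 := ker2 (fun i => if h : i < 154 then κ (en k (j, ⟨i, h⟩)) else 0) (fun i hi => by
    have h3 := congrFun hκ (en k (j, ⟨i, hi⟩))
    rw [Matrix.mulVecLin_apply, Matrix.mulVec, dotProduct, ← (en k).sum_comp,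
      Fintype.sum_prod_type, Fintype.sum_eq_single j fun j' h => by simp [form_en, h.symm]] at h3
    rw [← Fin.sum_univ_eq_sum_range (fun i' => if cl i i' = true then
      if h : i' < 154 then κ (en k (j, ⟨i', h⟩)) else 0 else 0)]
    simpa [form_en] using h3) i i.2
  simpa using h2

theorem main (k : ℕ) : ∃ Γ : SimpleGraph (Fin k × Fin 38),
    Nat.card Γ.edgeSet = 154 * k ∧ m2 Γ = 154 * k ∧
    ∀ (X : Type) [TopologicalSpace X] [PathConnectedSpace X] (x : X),
      Nonempty (FundamentalGroup X x ≃* Raag Γ) → ∀ c : Sx X 4 →₀ ℤ, Dual c →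
        ((155 * k : ℕ) : Cardinal) ≤ b2 X := by
  refine ⟨gr k, card_e, m2_eq, fun X _ _ x ⟨E⟩ c hc => le_trans (le_of_eq ?_)
    (core E hc (J := Fin k) (fun i : Fin k × Fin 154 => vx i.1 (ea i.2)) (fun i => vx i.1 (eb i.2))
      vx_e vx_inj Nat.prime_three fun ω hω => ?_)⟩
  · simp only [Fintype.card_prod, Fintype.card_fin]
    congr 1
    ring
  choose κ k1 k2 using fun j : Fin k => ker3
    (fun s t u v => (ω (vx j s) (vx j t) (vx j u) (vx j v) : ZMod 3))
    (fun s t u v => by rw [hω.sw1, Int.cast_neg]) (fun s t u v => by rw [hω.sw2, Int.cast_neg])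
    (fun s t u v => by rw [hω.sw3]) fun s t u v h => by
      rw [hω.zero _ _ _ _ fun e => by simpa [h] using (vx_adj.1 e).2, Int.cast_zero]
  choose o o1 o2 using k1
  refine ⟨fun j i => if i.1 = j then (κ j i.2).cast else 0, fun j => (j, ⟨o j, o1 j⟩),
    fun j h => o2 j ?_, fun j j' h => if_neg h.symm, fun j i => ?_⟩
  · simpa using (ZMod.intCast_zmod_eq_zero_iff_dvd _ 3).2 h
  refine (ZMod.intCast_zmod_eq_zero_iff_dvd _ 3).1 ?_
  rw [Fintype.sum_prod_type, Fintype.sum_eq_single j fun j' h => by simp [h]]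
  by_cases h : i.1 = j
  · have h1 := k2 j i.2 i.2.2
    rw [← Fin.sum_univ_eq_sum_range (fun i' => κ j i' *
      (ω (vx j (ea i')) (vx j (eb i')) (vx j (ea i.2)) (vx j (eb i.2)) : ZMod 3))] at h1
    simpa [h] using h1
  · rw [sum_eq_zero fun i' _ => by
      rw [hω.sw2, hω.zero _ _ _ _ fun e => h (vx_adj.1 e).1.symm, neg_zero, mul_zero],
      Int.cast_zero]

end Pool.Agent.Lib.MP_e039bb_gt
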