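import Pool.Agent.Lib.MP_e039bb_gt.Defs

/-! From singular simplices to the fundamental group, and tori. -/

namespace Pool.Agent.Lib.MP_e039bb_gt

open Finsupp CategoryTheory stdSimplex

variable {X : Type} [TopologicalSpace X]

/-- The cap product of a 2-cochain with 4-chains. -/
noncomputable def cap (φ : Sx X 2 → ℤ) : (Sx X 4 →₀ ℤ) →ₗ[ℤ] (Sx X 2 →₀ ℤ) :=
  linearCombination ℤ fun σ => single (face ![2, 3, 4] σ) (φ (face ![0, 1, 2] σ))

/-- `c` is a 4-cycle and the cap product with `c` maps `H ^ 2 (X; ℤ)` onto `H₂ (X; ℤ)`. -/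
def Dual (c : Sx X 4 →₀ ℤ) : Prop :=
  bd X 3 c = 0 ∧ ∀ z, bd X 1 z = 0 → ∃ (φ : Sx X 2 → ℤ) (w : Sx X 3 →₀ ℤ),
    linearCombination ℤ φ ∘ₗ bd X 2 = 0 ∧ z = cap φ c + bd X 2 w

theorem face_face {l m n : ℕ} (f : Fin (l + 1) → Fin (m + 1)) (g : Fin (m + 1) → Fin (n + 1))
    (σ : Sx X n) : face f (face g σ) = face (g ∘ f) σ :=
  ContinuousMap.ext fun t => congrArg σ (map_comp_apply f g t)

/-- An edge. -/
noncomputable def e2 {n : ℕ} (σ : Sx X n) (i j : Fin (n + 1)) : Sx X 1 := face ![i, j] σ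

/-- A triangle. -/
noncomputable def e3 {n : ℕ} (σ : Sx X n) (i j k : Fin (n + 1)) : Sx X 2 := face ![i, j, k] σ

theorem e2_face {m n : ℕ} (g : Fin (m + 1) → Fin (n + 1)) (σ : Sx X n) (i j : Fin (m + 1)) :
    e2 (face g σ) i j = e2 σ (g i) (g j) := by
  rw [e2, face_face, e2]
  congr 1
  ext l
  fin_cases l <;> rfl

theorem e3_face {m n : ℕ} (g : Fin (m + 1) → Fin (n + 1)) (σ : Sx X n) (i j k : Fin (m + 1)) :
    e3 (face g σ) i j k = e3 σ (g i) (g j) (g k) := by
  rw [e3, face_face, e3]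
  congr 1
  ext l
  fin_cases l <;> rfl

theorem ev_bd {A : Type} [AddCommGroup A] {n : ℕ} (F : Sx X n → A) (c : Sx X (n + 1) →₀ ℤ) :
    linearCombination ℤ F (bd X n c) = linearCombination ℤ
      (fun σ => ∑ i : Fin (n + 2), ((-1 : ℤ) ^ (i : ℕ)) • F (face i.succAbove σ)) c := by
  rw [bd, apply_linearCombination]
  congr 2
  funext σ
  simp only [Function.comp, map_sum, linearCombination_single]

theorem sum3 {A : Type} [AddCommGroup A] (F : Sx X 1 → A) (σ : Sx X 2) :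
    ∑ i : Fin 3, ((-1 : ℤ) ^ (i : ℕ)) • F (face i.succAbove σ) =
      F (e2 σ 1 2) - F (e2 σ 0 2) + F (e2 σ 0 1) := by
  rw [Fin.sum_univ_three, (by decide : (0 : Fin 3).succAbove = ![1, 2]),
    (by decide : (1 : Fin 3).succAbove = ![0, 2]), (by decide : (2 : Fin 3).succAbove = ![0, 1])]
  simp [e2, sub_eq_add_neg]

theorem sum4 {A : Type} [AddCommGroup A] (F : Sx X 2 → A) (σ : Sx X 3) :
    ∑ i : Fin 4, ((-1 : ℤ) ^ (i : ℕ)) • F (face i.succAbove σ) =
      F (e3 σ 1 2 3) - F (e3 σ 0 2 3) + F (e3 σ 0 1 3) - F (e3 σ 0 1 2) := by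
  rw [Fin.sum_univ_four, (by decide : (0 : Fin 4).succAbove = ![1, 2, 3]),
    (by decide : (1 : Fin 4).succAbove = ![0, 2, 3]),
    (by decide : (2 : Fin 4).succAbove = ![0, 1, 3]),
    (by decide : (3 : Fin 4).succAbove = ![0, 1, 2])]
  simp [e3, sub_eq_add_neg, Odd.neg_one_pow (by decide : Odd 3)]

theorem sum5 {A : Type} [AddCommGroup A] (F : Sx X 3 → A) (σ : Sx X 4) :
    ∑ i : Fin 5, ((-1 : ℤ) ^ (i : ℕ)) • F (face i.succAbove σ) =
      F (face ![1, 2, 3, 4] σ) - F (face ![0, 2, 3, 4] σ) + F (face ![0, 1, 3, 4] σ) -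
        F (face ![0, 1, 2, 4] σ) + F (face ![0, 1, 2, 3] σ) := by
  rw [Fin.sum_univ_five, (by decide : (0 : Fin 5).succAbove = ![1, 2, 3, 4]),
    (by decide : (1 : Fin 5).succAbove = ![0, 2, 3, 4]),
    (by decide : (2 : Fin 5).succAbove = ![0, 1, 3, 4]),
    (by decide : (3 : Fin 5).succAbove = ![0, 1, 2, 4]),
    (by decide : (4 : Fin 5).succAbove = ![0, 1, 2, 3])]
  simp [sub_eq_add_neg, Odd.neg_one_pow (by decide : Odd 3), Even.neg_one_pow (by decide : Even 4)]

/-- The path along a singular 1-simplex. -/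
noncomputable def pe (e : Sx X 1) : Path (e (vertex 0)) (e (vertex 1)) where
  toFun s := e (stdSimplexHomeomorphUnitInterval.symm s)
  continuous_toFun := e.continuous.comp stdSimplexHomeomorphUnitInterval.symm.continuous
  source' := congrArg e (stdSimplexHomeomorphUnitInterval.symm_apply_eq.2
    stdSimplexHomeomorphUnitInterval_zero.symm)
  target' := congrArg e (stdSimplexHomeomorphUnitInterval.symm_apply_eq.2
    stdSimplexHomeomorphUnitInterval_one.symm)

/-- The singular 1-simplex of a path. -/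
noncomputable def ed {x y : X} (p : Path x y) : Sx X 1 :=
  ⟨fun t => p.extend (t 1), p.continuous_extend.comp
    ((continuous_apply 1).comp continuous_subtype_val)⟩

variable [PathConnectedSpace X] (x₀ : X)

/-- A class of paths from the base point. -/
noncomputable def ga (x : X) : FundamentalGroupoid.mk x₀ ⟶ FundamentalGroupoid.mk x :=
  Groupoid.inv (FundamentalGroupoid.fromPath ⟦PathConnectedSpace.somePath x₀ x₀⟧) ≫
    FundamentalGroupoid.fromPath ⟦PathConnectedSpace.somePath x₀ x⟧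

/-- The loop that a path defines. -/
noncomputable def lp {x y : X} (p : Path x y) : FundamentalGroup X x₀ :=
  ga x₀ x ≫ FundamentalGroupoid.fromPath ⟦p⟧ ≫ Groupoid.inv (ga x₀ y)

theorem lp_congr {x y x' y' : X} (p : Path x y) (q : Path x' y') (h : ∀ s, p s = q s) :
    lp x₀ p = lp x₀ q := by
  obtain rfl : x = x' := by rw [← p.source, h, q.source]
  obtain rfl : y = y' := by rw [← p.target, h, q.target]
  rw [Path.ext (funext h)]

theorem lp_loop (p : Path x₀ x₀) : lp x₀ p = FundamentalGroup.fromPath ⟦p⟧ := by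
  have h : ga x₀ x₀ = 𝟙 _ := Groupoid.inv_comp _
  rw [lp, h]
  simp

theorem lp_trans {x y z : X} (p : Path x y) (q : Path y z) :
    lp x₀ (p.trans q) = lp x₀ q * lp x₀ p := by
  have h : (FundamentalGroupoid.fromPath ⟦p.trans q⟧ :
      FundamentalGroupoid.mk x ⟶ FundamentalGroupoid.mk z) =
      FundamentalGroupoid.fromPath ⟦p⟧ ≫ FundamentalGroupoid.fromPath ⟦q⟧ := rfl
  rw [End.mul_def, lp, lp, lp, h]
  simp

theorem lp_hom {x y : X} {p q : Path x y} (h : p.Homotopic q) : lp x₀ p = lp x₀ q := by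
  rw [lp, lp, Quotient.sound h]

/-- The element of the fundamental group that an edge defines. -/
noncomputable def gg (e : Sx X 1) : FundamentalGroup X x₀ := lp x₀ (pe e)

theorem gg_ed {x y : X} (p : Path x y) : gg x₀ (ed p) = lp x₀ p :=
  lp_congr x₀ _ _ fun s => p.extend_extends' s

theorem gg_co {n : ℕ} (σ : Sx X n) (i j k : Fin (n + 1)) :
    gg x₀ (e2 σ i k) = gg x₀ (e2 σ j k) * gg x₀ (e2 σ i j) := by
  let ι : Sx (stdSimplex ℝ (Fin (n + 1))) n := ContinuousMap.id _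
  let s : ∀ a b : Fin (n + 1), Path (vertex (S := ℝ) a) (vertex b) := fun a b =>
    (pe (e2 ι a b)).cast (map_vertex ![a, b] 0).symm (map_vertex ![a, b] 1).symm
  have h : ∀ a b, gg x₀ (e2 σ a b) = lp x₀ ((s a b).map σ.continuous) := fun a b =>
    lp_congr x₀ _ _ fun _ => rfl
  have : ContractibleSpace (stdSimplex ℝ (Fin (n + 1))) :=
    (convex_stdSimplex ℝ _).contractibleSpace ⟨_, single_mem_stdSimplex ℝ 0⟩
  rw [h, h, h, ← lp_trans, ← Path.map_trans]
  exact lp_hom x₀ ((SimplyConnectedSpace.paths_homotopic _ _).map σ)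

omit [PathConnectedSpace X] in
theorem e2_fun (K : ℝ → ℝ → X) (hK : Continuous fun t : stdSimplex ℝ (Fin 3) => K (t 1) (t 2))
    (t : stdSimplex ℝ (Fin 2)) :
    e2 (n := 2) ⟨_, hK⟩ 0 1 t = K (t 1) 0 ∧ e2 (n := 2) ⟨_, hK⟩ 1 2 t = K (1 - t 1) (t 1) ∧
      e2 (n := 2) ⟨_, hK⟩ 0 2 t = K 0 (t 1) := by
  have h := add_eq_one t
  refine ⟨?_, ?_, ?_⟩
  · change K (map ![0, 1] t 1) (map ![0, 1] t 2) = _
    simp [FunOnFinite.linearMap_apply_apply, Finset.sum_filter, Fin.sum_univ_two]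
  · change K (map ![1, 2] t 1) (map ![1, 2] t 2) = _
    simp [FunOnFinite.linearMap_apply_apply, Finset.sum_filter, Fin.sum_univ_two, ← h]
  · change K (map ![0, 2] t 1) (map ![0, 2] t 2) = _
    simp [FunOnFinite.linearMap_apply_apply, Finset.sum_filter, Fin.sum_univ_two]

omit [PathConnectedSpace X] in
theorem cont_co (i : Fin 3) : Continuous fun t : stdSimplex ℝ (Fin 3) => t i :=
  (continuous_apply i).comp continuous_subtype_val

omit [PathConnectedSpace X] in
theorem tri {x y z : X} (p : Path x y) (q : Path y z) : ∃ σ : Sx X 2,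
    e2 σ 0 1 = ed p ∧ e2 σ 1 2 = ed q ∧ e2 σ 0 2 = ed (p.trans q) := by
  let K : ℝ → ℝ → X := fun a b => (p.trans q).extend (a / 2 + b)
  have hK : Continuous fun t : stdSimplex ℝ (Fin 3) => K (t 1) (t 2) :=
    (p.trans q).continuous_extend.comp (((cont_co 1).div_const 2).add (cont_co 2))
  refine ⟨⟨_, hK⟩, ContinuousMap.ext fun t => (e2_fun K hK t).1.trans ?_,
    ContinuousMap.ext fun t => (e2_fun K hK t).2.1.trans ?_,
    ContinuousMap.ext fun t => (e2_fun K hK t).2.2.trans ?_⟩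
  · exact (Path.extend_trans_of_le_half _ _ (by linarith [le_one t 1])).trans
      (congrArg p.extend (by ring))
  · exact (Path.extend_trans_of_half_le _ _ (by linarith [zero_le t 1])).trans
      (congrArg q.extend (by ring))
  · exact congrArg (p.trans q).extend (by ring)

omit [PathConnectedSpace X] in
theorem sq {x : X} {p q : Path x x} (h : p.Homotopic q) : ∃ (σ τ : Sx X 2),
    e2 σ 0 1 = ed p ∧ e2 σ 1 2 = ed (Path.refl x) ∧ e2 τ 0 1 = ed (Path.refl x) ∧
      e2 τ 1 2 = ed q ∧ e2 σ 0 2 = e2 τ 0 2 := by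
  obtain ⟨H⟩ := h
  let P : ℝ → unitInterval := Set.projIcc 0 1 zero_le_one
  have hP : Continuous P := continuous_projIcc
  have P0 : P 0 = 0 := Set.projIcc_left _
  have P1 : P 1 = 1 := Set.projIcc_right _
  let K₁ : ℝ → ℝ → X := fun a b => H (P b, P (a + b))
  let K₂ : ℝ → ℝ → X := fun a b => H (P (a + b), P b)
  have h1 : Continuous fun t : stdSimplex ℝ (Fin 3) => K₁ (t 1) (t 2) :=
    H.continuous.comp ((hP.comp (cont_co 2)).prodMk (hP.comp ((cont_co 1).add (cont_co 2))))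
  have h2 : Continuous fun t : stdSimplex ℝ (Fin 3) => K₂ (t 1) (t 2) :=
    H.continuous.comp ((hP.comp ((cont_co 1).add (cont_co 2))).prodMk (hP.comp (cont_co 2)))
  refine ⟨⟨_, h1⟩, ⟨_, h2⟩, ContinuousMap.ext fun t => (e2_fun K₁ h1 t).1.trans ?_,
    ContinuousMap.ext fun t => (e2_fun K₁ h1 t).2.1.trans ?_,
    ContinuousMap.ext fun t => (e2_fun K₂ h2 t).1.trans ?_,
    ContinuousMap.ext fun t => (e2_fun K₂ h2 t).2.1.trans ?_,
    ContinuousMap.ext fun t => (e2_fun K₁ h1 t).2.2.trans ((e2_fun K₂ h2 t).2.2.trans ?_).symm⟩ <;>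
    simp only [K₁, K₂]
  · rw [P0, add_zero]
    exact H.apply_zero _
  · rw [sub_add_cancel, P1]
    exact H.target _
  · rw [P0]
    exact H.source _
  · rw [sub_add_cancel, P1]
    exact H.apply_one _
  · rw [zero_add]

/-- Two commuting elements span a torus. -/
theorem torus {a b : FundamentalGroup X x₀} (h : Commute a b) : ∃ t : Sx X 2 →₀ ℤ,
    bd X 1 t = 0 ∧ ∀ φ ψ : FundamentalGroup X x₀ → ℤ, φ 1 = 0 → ψ 1 = 0 →
      linearCombination ℤ (fun σ => φ (gg x₀ (e2 σ 0 1)) * ψ (gg x₀ (e2 σ 1 2))) t =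
        φ a * ψ b - φ b * ψ a := by
  obtain ⟨p, hp⟩ := Quotient.exists_rep (FundamentalGroup.toPath a)
  obtain ⟨q, hq⟩ := Quotient.exists_rep (FundamentalGroup.toPath b)
  have ha : lp x₀ p = a := (lp_loop x₀ p).trans hp
  have hb : lp x₀ q = b := (lp_loop x₀ q).trans hq
  have h1 : (p.trans q).Homotopic (q.trans p) := by
    have h2 : lp x₀ (p.trans q) = lp x₀ (q.trans p) := by rw [lp_trans, lp_trans, ha, hb, h.eq]
    rw [lp_loop, lp_loop] at h2
    exact Quotient.exact h2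
  have h0 : lp x₀ (Path.refl x₀) = 1 := lp_loop x₀ _
  obtain ⟨σ₁, a1, a2, a3⟩ := tri p q
  obtain ⟨σ₂, b1, b2, b3⟩ := tri q p
  obtain ⟨τ₁, τ₂, c1, c2, c3, c4, c5⟩ := sq h1
  refine ⟨single σ₁ 1 - single σ₂ 1 + single τ₁ 1 - single τ₂ 1, ?_, fun φ ψ φ1 ψ1 => ?_⟩
  · have h3 : ∀ σ : Sx X 2, bd X 1 (single σ 1) =
        single (e2 σ 1 2) 1 - single (e2 σ 0 2) 1 + single (e2 σ 0 1) 1 := fun σ => by
      rw [bd, linearCombination_single, one_smul, ← sum3 (fun e => single e (1 : ℤ))]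
      simp
    simp only [map_add, map_sub, h3, a1, a2, a3, b1, b2, b3, c1, c2, c3, c4, c5]
    abel
  · simp only [map_add, map_sub, linearCombination_single, one_smul, a1, a2, b1, b2, c1, c2, c3,
      c4, gg_ed, ha, hb, h0, φ1, ψ1]
    ring

end Pool.Agent.Lib.MP_e039bb_gt
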